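import Pool.Agent.U167.SA.Stm2
import Pool.Agent.U606.SA.EX
import Pool.Agent.H988R2.Perc.T26

/-!
Project SA, package EX2: the exact asymptotics in all slit strips and in the straight half-plane.
-/

set_option autoImplicit false

namespace Pool.Agent.U566.SA

open H974 Filter Topology
open Pool.Agent.U167.SA
open Pool.Agent.H988R2.Perc (Conf OpenAdj perc Arm arm_asymptotics)
open Pool.Agent.H981R2.TP.PL
open Pool.Agent.U606.SA (flipE fl fl_true fl_false)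

/-- open edges of a domain, after exchange of the horizontal and the vertical labels -/
theorem adj_gen (P : Vtx → Vtx → Prop) (hP : ∀ x y, P x y → P y x) (G : Set Edg)
    (hG : ∀ e, e ∈ G ↔ P (src e) (tgt e)) (ω : Conf) (x y : ℤ × ℤ) :
    Adj ({e : Edg | ω e = true} ∩ G) x y ↔ OpenAdj (fl ω) x y ∧ P x y := by
  constructor
  · rintro ⟨⟨a, b, c⟩, ⟨ho, hg⟩, h⟩
    rw [hG] at hg
    simp only [Set.mem_ofPred_eq] at ho
    cases c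
    · simp only [src_mk, tgt_false] at h hg
      rcases h with ⟨rfl, rfl⟩ | ⟨rfl, rfl⟩
      · exact ⟨Or.inr (Or.inr (Or.inl ⟨rfl, by rw [fl_true]; exact ho⟩)), hg⟩
      · exact ⟨Or.inr (Or.inr (Or.inr ⟨rfl, by rw [fl_true]; exact ho⟩)), hP _ _ hg⟩
    · simp only [src_mk, tgt_true] at h hg
      rcases h with ⟨rfl, rfl⟩ | ⟨rfl, rfl⟩
      · exact ⟨Or.inl ⟨rfl, by rw [fl_false]; exact ho⟩, hg⟩
      · exact ⟨Or.inr (Or.inl ⟨rfl, by rw [fl_false]; exact ho⟩), hP _ _ hg⟩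
  · rintro ⟨h, hs⟩
    obtain ⟨x1, x2⟩ := x
    obtain ⟨y1, y2⟩ := y
    rcases h with ⟨h, ho⟩ | ⟨h, ho⟩ | ⟨h, ho⟩ | ⟨h, ho⟩
    · simp only [Prod.mk.injEq] at h
      obtain ⟨rfl, rfl⟩ := h
      rw [fl_false] at ho
      exact ⟨(x1, y2, true), ⟨ho, (hG _).mpr hs⟩, Or.inl ⟨rfl, rfl⟩⟩
    · simp only [Prod.mk.injEq] at h
      obtain ⟨rfl, rfl⟩ := h
      rw [fl_false] at ho
      exact ⟨(y1, x2, true), ⟨ho, (hG _).mpr (hP _ _ hs)⟩, Or.inr ⟨rfl, rfl⟩⟩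
    · simp only [Prod.mk.injEq] at h
      obtain ⟨rfl, rfl⟩ := h
      rw [fl_true] at ho
      exact ⟨(y1, x2, false), ⟨ho, (hG _).mpr hs⟩, Or.inl ⟨rfl, rfl⟩⟩
    · simp only [Prod.mk.injEq] at h
      obtain ⟨rfl, rfl⟩ := h
      rw [fl_true] at ho
      exact ⟨(x1, y2, false), ⟨ho, (hG _).mpr (hP _ _ hs)⟩, Or.inr ⟨rfl, rfl⟩⟩

/-- the event of a domain -/
def EV (G : Set Edg) (n : ℤ) : Set Conf :=
  {ω | ∃ u ∈ ({((1:ℤ), (0:ℤ))} : Set Vtx), ∃ v, col v = n ∧ Reach ({e : Edg | ω e = true} ∩ G) u v}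

theorem pp_eq (h : PercStm) (G : Set Edg) (n : ℤ) (S : Set Conf)
    (hS : ∀ ω, ω ∈ EV G n ↔ fl ω ∈ S) : PP G {((1:ℤ), (0:ℤ))} n = perc.real S := by
  have h1 : PP G {((1:ℤ), (0:ℤ))} n = percE.real (EV G n) := h G {((1:ℤ), (0:ℤ))} n
  have h2 : percE = perc := rfl
  have h3 : EV G n = (fun ω : Conf => fun i => ω (flipE.symm i)) ⁻¹' S := by
    ext ω
    exact hS ω
  rw [h1, h2, h3]
  exact perc_map flipE S

/-! ## slit strips -/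

theorem adj_strip (p r : ℕ) (ω : Conf) (x y : ℤ × ℤ) :
    Adj ({e : Edg | ω e = true} ∩ (Slt ∩ Str p r)) x y ↔ SAdj p r (fl ω) x y := by
  rw [adj_gen (fun x y => ¬ (1 ≤ ht x ∧ 1 ≤ ht y ∧ (col x = 1 ∨ col y = 1)) ∧
      (1 - (p:ℤ) ≤ col x ∧ col x ≤ 1 + r) ∧ (1 - (p:ℤ) ≤ col y ∧ col y ≤ 1 + r))
      (fun x y h => ⟨fun h' => h.1 ⟨h'.2.1, h'.1, h'.2.2.symm⟩, h.2.2, h.2.1⟩)
      (Slt ∩ Str p r) (fun e => Iff.rfl) ω x y]
  unfold SAdj SlitAdj col ht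
  tauto

theorem strip_pp (h : PercStm) (p r : ℕ) :
    PP (Slt ∩ Str p r) {((1:ℤ), (0:ℤ))} (1 + (r:ℤ)) = perc.real (StripArm p r) := by
  refine pp_eq h _ _ _ fun ω => ?_
  have e : ∀ x y, Adj ({e : Edg | ω e = true} ∩ (Slt ∩ Str p r)) x y ↔ SAdj p r (fl ω) x y :=
    adj_strip p r ω
  constructor
  · rintro ⟨u, hu, v, h3, h4⟩
    obtain rfl : u = ((1:ℤ), (0:ℤ)) := hu
    exact ⟨v, h3, rtg_mono (fun a b hab => (e a b).mp hab) h4⟩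
  · rintro ⟨v, h3, h4⟩
    exact ⟨((1:ℤ), (0:ℤ)), rfl, v, h3, rtg_mono (fun a b hab => (e a b).mpr hab) h4⟩

/-! ## the half-plane -/

theorem DV_iff (v : Vtx) : DV 0 0 v ↔ v.2 ≤ v.1 := by
  unfold DV col ht
  constructor
  · rintro ⟨h1, h2⟩
    by_cases hh : 0 ≤ v.1 + v.2
    · have := h1 hh
      omega
    · have := h2 (by omega)
      omega
  · intro hv
    exact ⟨fun _ => by omega, fun _ => by omega⟩

theorem adj_half (ω : Conf) (x y : ℤ × ℤ) :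
    Adj ({e : Edg | ω e = true} ∩ Dm 0 0) x y ↔ OpenAdj (fl ω) x y ∧ x.2 ≤ x.1 ∧ y.2 ≤ y.1 := by
  rw [adj_gen (fun x y => DV 0 0 x ∧ DV 0 0 y) (fun x y h => ⟨h.2, h.1⟩) (Dm 0 0)
      (fun e => Iff.rfl) ω x y, DV_iff, DV_iff]

theorem half_pp (h : PercStm) (n : ℕ) :
    PP (Dm 0 0) {((1:ℤ), (0:ℤ))} (n:ℤ) = perc.real (Arm n) := by
  refine pp_eq h _ _ _ fun ω => ?_
  constructor
  · rintro ⟨u, hu, v, h3, h4⟩
    obtain rfl : u = ((1:ℤ), (0:ℤ)) := hu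
    exact ⟨v, h3, rtg_mono (fun a b hab => (adj_half ω a b).mp hab) h4⟩
  · rintro ⟨v, h3, h4⟩
    exact ⟨((1:ℤ), (0:ℤ)), rfl, v, h3, rtg_mono (fun a b hab => (adj_half ω a b).mpr hab) h4⟩

/-- **EX2** and **EX3** -/
theorem t_EX2 (h : PercStm) (_hb : PPBStm) : ExStm2 ∧ ExStm3 := by
  constructor
  · intro p r tp tr
    have h1 := strip_asymp p r tp tr
    refine h1.congr fun n => ?_
    rw [strip_pp h]
  · have h1 := arm_asymptotics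
    show Tendsto (fun n : ℕ => PP (Dm 0 0) {((1:ℤ), (0:ℤ))} n * (n:ℝ)^((1:ℝ)/3)) atTop
      (𝓝 (9 / 4 * Real.Gamma (2/3) / Real.Gamma (1/3)))
    refine h1.congr fun n => ?_
    rw [half_pp h, mul_comm]

end Pool.Agent.U566.SA
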