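import Pool.Agent.U566.SA.EX2

/-!
Project SA, package EX4: the exact asymptotics in the slit plane.
-/

set_option autoImplicit false

namespace Pool.Agent.U566.SA

open H974 Filter Topology
open Pool.Agent.U167.SA
open Pool.Agent.H988R2.Perc (Conf OpenAdj perc)
open Pool.Agent.H981R2.TP.PL
open Pool.Agent.U606.SA (flipE fl fl_true fl_false)

theorem adj_slt (ω : Conf) (x y : ℤ × ℤ) :
    Adj ({e : Edg | ω e = true} ∩ Slt) x y ↔ SlitAdj (fl ω) x y := by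
  rw [adj_gen (fun x y => ¬ (1 ≤ ht x ∧ 1 ≤ ht y ∧ (col x = 1 ∨ col y = 1)))
      (fun x y h => fun h' => h ⟨h'.2.1, h'.1, h'.2.2.symm⟩)
      Slt (fun e => Iff.rfl) ω x y]
  unfold SlitAdj col ht
  exact Iff.rfl

theorem slt_pp (h : PercStm) (r : ℕ) :
    PP Slt {((1:ℤ), (0:ℤ))} (1 + (r:ℤ)) = perc.real (PlaneArm r) := by
  refine pp_eq h _ _ _ fun ω => ?_
  constructor
  · rintro ⟨u, hu, v, h3, h4⟩
    obtain rfl : u = ((1:ℤ), (0:ℤ)) := hu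
    exact ⟨v, h3, rtg_mono (fun a b hab => (adj_slt ω a b).mp hab) h4⟩
  · rintro ⟨v, h3, h4⟩
    exact ⟨((1:ℤ), (0:ℤ)), rfl, v, h3, rtg_mono (fun a b hab => (adj_slt ω a b).mpr hab) h4⟩

/-- **EX4**: the slit plane -/
theorem t_EX4 (h : PercStm) (_hb : PPBStm) :
    Tendsto (fun r : ℕ => PP Slt {((1:ℤ), (0:ℤ))} (1 + (r:ℤ)) * (r:ℝ)^((1:ℝ)/6)) atTop
      (𝓝 (√Real.pi / Real.Gamma (1/3))) := by
  refine plane_asymp.congr fun r => ?_
  rw [slt_pp h]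

end Pool.Agent.U566.SA
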